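import Pool.Agent.R862.WS.Defs
import Pool.Agent.R862.WS.Nrm
import Pool.Agent.R862.WS.Zob
import Pool.Agent.R862.WS.FIN
import Pool.Agent.R862.WS.CONF
import Pool.Agent.R862.WS.T1
import Pool.Agent.R862.WS.T2
import Pool.Agent.R862.WS.D4
import Pool.Agent.R862.WS.WILD
import Pool.Agent.R862.WS.GD

/-!
# A wild Schur-representation-finite algebra of finite global dimension (MP_72314f_al)

The example is the radical square zero algebra of the acyclic quiver with vertices `0, …, 4` and
arrows `0 → 2, 0 → 4, 1 → 2, 1 → 3, 2 → 3, 2 → 4, 3 → 4`.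
-/

set_option autoImplicit false

universe u

namespace Pool.Agent.Results.MP_72314f_al.WildSchurFinite

open WS862

theorem result (K : Type u) [Field K] [IsAlgClosed K] [CharZero K] :
    ∃ (A : Type u) (_ : Ring A) (_ : Algebra K A), FiniteDimensional K A ∧ Wild K A ∧
      SchurFinite K A ∧ FinGlDim A := by
  refine ⟨Alg K, inferInstance, inferInstance, ?_, t_WILD K, ?_, t_GD K⟩
  · exact inferInstanceAs (Module.Finite K ((Fin 5 → K) × (Fin 7 → K)))
  · exact t_FIN (t_ZOB t_CONF (t_T1 t_N1 t_N2) (t_T2 t_N1 t_N2) (t_D4 t_N1 t_N2)) K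

end Pool.Agent.Results.MP_72314f_al.WildSchurFinite
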